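import Pool.Agent.H20.M5.Vert
import Pool.Agent.H92.M5.AlsC

/-!
# L1, row ALS: the means of the kernel
-/

set_option autoImplicit false

namespace Pool.M5.ALS

open Finset Real
open Pool.Agent.H49.Ent Pool.Agent.H32.Dense Pool.STK Pool.KAF

variable {k n : ℕ} {I : Type} [Fintype I] {b : Bas k I} {d : LDat k n I} {J : d.Om → Set ℕ}
  {m : (Fin (n + 1) → d.Om) → ℤ} {ns : ℕ}

theorem Bf_mean' {A : ℕ} {c : ℝ} (hOK : d.OK b A c) {η : ℝ} (hη : 0 ≤ η) :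
    Ex d.Qr (fun v => ((Pool.M5.A92.Bf b d m ns η v).card : ℝ)) ≤
      2 ^ (k + n) * η * ((d.X - 16 * ns : ℕ) : ℝ) := Bf_mean b d m ns hOK hη

theorem Af_mean {A h k₀ k' k₁ a k'' i₀ : ℕ} {c e ε : ℝ} (hOK : d.OK b A c)
    (hS : Siz b d ns h m c) (hCr : Pool.M5.N2.Cr n k₀ ≤ ns) (hkk : a + k + 2 * n + 10 ≤ k')
    (hk₁ : k₁ ≤ ns) (hi₀ : k₁ + 3 * n + 1 ≤ i₀) (hi₁ : i₀ + ns / 8 ≤ ns)
    (hRow : RowA b d J m ns k' k₁ e) (he : 0 ≤ e) (hNLC : NLC b d m ns a k₀ ε)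
    (hTA : TA d ns ε) (hTB : TB d ns k'' ε) (hTC : TC d k₀ ε) :
    Ex d.Qr (fun v => Ex (pk d v) (fun w => Pool.M5.A92.Af b d J m ns i₀ a k'' k₁ v w)) ≤
      (2 * e + ((n + 1) ^ 2 + 3) * ε) * (((ns - i₀ : ℕ) : ℝ) * ((d.X - 16 * ns : ℕ) : ℝ)) := by
  classical
  have s1 := hS.h1
  have s2 := hS.hn
  have s3 := hS.nX
  have h1 : Ex d.Qr (fun v => Ex (pk d v) (fun w =>
      Pool.M5.A92.Af b d J m ns i₀ a k'' k₁ v w)) =
      ∑ i ∈ range (ns - i₀), ∑ s ∈ range (d.X - 16 * ns), Ex d.Qr (fun v => Ex (pk d v) (fun w =>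
      if s + i ∈ {j | i₀ + j ∈ Jf d J m ns v w} ∧ ns - i₀ ≤ s + i ∧ s + i < d.X - 16 * ns then
      Ex (qk d (i₀ + i) w) (fun t => Pr (rk b d m ns s v)
        {v' | hk d m a k'' k₁ v * Yk ns a s < |Fb b d ns v (w, t) v'|}) else 0)) := by
    unfold Ex Pool.M5.A92.Af Fb
    simp only [Finset.mul_sum]
    have e1 : ∀ v : Fin (n + 1) → d.Om, ∀ f : ℕ → ℕ → d.Om → ℝ,
        ∑ w, ∑ i ∈ range (ns - i₀), ∑ s ∈ range (d.X - 16 * ns), f i s w =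
        ∑ i ∈ range (ns - i₀), ∑ s ∈ range (d.X - 16 * ns), ∑ w, f i s w := by
      intro v f
      rw [Finset.sum_comm]
      exact Finset.sum_congr rfl fun i _ => Finset.sum_comm
    rw [Finset.sum_congr rfl fun v _ => e1 v _, Finset.sum_comm]
    refine Finset.sum_congr rfl fun i _ => ?_
    exact Finset.sum_comm
  rw [h1]
  have h2 := Finset.sum_le_sum fun i (hi : i ∈ range (ns - i₀)) =>
    vert (k'' := k'') (n₁ := ns - i₀) hOK hS hCr hkk hk₁ hi₀ hRow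
      (by have := mem_range.1 hi; omega : i₀ + i < ns)
  refine h2.trans ?_
  have h3 := hTB i₀ ns (by omega) (by omega)
  rw [Finset.sum_Ico_eq_sum_range] at h3
  have hX : (d.X : ℝ) ≤ 2 * ((d.X - 16 * ns : ℕ) : ℝ) := by
    have : d.X ≤ 2 * (d.X - 16 * ns) := by omega
    exact_mod_cast this
  have hX0 : (0 : ℝ) ≤ ((d.X - 16 * ns : ℕ) : ℝ) := Nat.cast_nonneg _
  have h4 : ∀ i ∈ range (ns - i₀), (e * d.X + ((d.X - 16 * ns : ℕ) : ℝ) *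
      (Pr (d.Qp (i₀ + i)) {w | |d.ta w| < (2 : ℝ) ^ (-(((i₀ + i : ℕ) : ℤ) + k''))} +
        Pr (d.Q4 (i₀ + i)) {u | u ∉ gW b d m ns k₀ a})) ≤
      (2 * e * ((d.X - 16 * ns : ℕ) : ℝ) +
        ((d.X - 16 * ns : ℕ) : ℝ) * (((n + 1) ^ 2 + 2) * ε)) +
      ((d.X - 16 * ns : ℕ) : ℝ) *
        Pr (d.Qp (i₀ + i)) {w | |d.ta w| < (2 : ℝ) ^ (-(((i₀ + i : ℕ) : ℤ) + k''))} := by
    intro i hi
    have h5 := mul_le_mul_of_nonneg_left (gW_mean hOK hS hNLC hTA hTC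
      (by have := mem_range.1 hi; omega : i₀ + i < ns)) hX0
    have h6 := mul_le_mul_of_nonneg_left hX he
    rw [mul_add]
    linarith
  refine (Finset.sum_le_sum h4).trans ?_
  rw [Finset.sum_add_distrib, Finset.sum_const, card_range, nsmul_eq_mul, ← Finset.mul_sum]
  have h7 := mul_le_mul_of_nonneg_left h3 hX0
  have h9 : (ns : ℝ) - i₀ = ((ns - i₀ : ℕ) : ℝ) := by
    rw [Nat.cast_sub (by omega)]
  rw [h9] at h7
  have h8 : (2 * e + ((n + 1) ^ 2 + 3) * ε) *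
      (((ns - i₀ : ℕ) : ℝ) * ((d.X - 16 * ns : ℕ) : ℝ)) =
      ((ns - i₀ : ℕ) : ℝ) * (2 * e * ((d.X - 16 * ns : ℕ) : ℝ) +
        ((d.X - 16 * ns : ℕ) : ℝ) * (((n + 1) ^ 2 + 2) * ε)) +
      ((d.X - 16 * ns : ℕ) : ℝ) * (ε * ((ns - i₀ : ℕ) : ℝ)) := by ring
  rw [h8]
  linarith

theorem RowA_nonneg {A h k' k₁ : ℕ} {c e : ℝ} (hOK : d.OK b A c)
    (hS : Siz b d ns h m c) (hRow : RowA b d J m ns k' k₁ e) : 0 ≤ e := by
  have s1 := hS.h1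
  have s2 := hS.hn
  have s3 := hS.nX
  have g1 := hRow 0 (by omega) (fun _ => 0) ∅ (fun _ _ _ _ _ _ _ _ _ => ⟨rfl, Iff.rfl⟩)
    (fun u v s _ _ hW => absurd hW (by simp))
  have g2 : (0 : ℝ) < d.X := by
    have : 0 < d.X := by omega
    exact_mod_cast this
  by_contra hcon
  push Not at hcon
  have g3 := mul_neg_of_neg_of_pos hcon g2
  refine absurd g1 (not_le.2 (lt_of_lt_of_le g3 (Finset.sum_nonneg fun s _ =>
    Ex_nonneg (Q4_law d hOK.law 0).nonneg fun u _ =>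
      Set.indicator_nonneg (fun u _ => Pool.KAF.Pr_nonneg
        (fun v => cond_nonneg (Qr_nonneg d hOK.law.nonneg) _ _ v) _) u)))

/-- The scale of a pair. -/
noncomputable def lv (d : LDat k n I) (w : d.Om × d.Om) : ℕ := (Pool.OC.sc (d.ta w)).toNat

theorem lv_le {k₀ a : ℕ} {u : (Fin (n + 1) → d.Om) × (d.Om × d.Om)}
    (hu : u ∈ gW b d m ns k₀ a) : lv d u.2 ≤ 2 * ns ∧ d.ta u.2 ≠ 0 := by
  refine ⟨?_, gW_ta hu⟩
  have h1 : (2 : ℝ) ^ (-((2 * ns : ℕ) : ℤ)) ≤ |d.ta u.2| := by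
    push_cast
    exact hu.2.1
  have h2 := Pool.OC.sc_leW h1
  unfold lv
  omega

open Classical in
/-- The forms of the pairs are atomic at their effective scale. -/
theorem eff {A h k₀ k' k₁ a k'' : ℕ} {c e : ℝ} (hOK : d.OK b A c) (hS : Siz b d ns h m c)
    (hCr : Pool.M5.N2.Cr n k₀ ≤ ns) (hkk : a + k + 2 * n + 10 ≤ k') (hk₁ : k₁ ≤ ns)
    (hRow : RowA b d J m ns k' k₁ e) {i : ℕ} (hi : i < ns) :
    Ex (d.Q4 i) (fun z => if z ∈ gW b d m ns k₀ a then ∑ s ∈ range (d.X - 16 * ns),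
      (if s + lv d z.2 ∈ Jf d J m ns z.1 z.2.1 then Pr (rk b d m ns s z.1)
        {v' | hk d m a k'' k₁ z.1 * Yk ns a s < |∑ e : Fin n, (d.dt e z.2 / d.ta z.2) *
          cp b d z.1 v' e - Bp d z.1 (ch b d ns z.1 z.2) v'|} else 0) else 0) ≤ e * d.X := by
  have hQ := Q4_law d hOK.law i
  have h1 := hRow i (by omega) (fun u => m u.1 + Pool.OC.sc (d.ta u.2))
    (gW b d m ns k₀ a) (by
      intro u u' _ _ g1 g2 g3 g4 g5
      refine ⟨?_, gW_congr b d m ns g1 g2 g3 g4 g5⟩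
      show m u.1 + Pool.OC.sc (d.ta u.2) = m u'.1 + Pool.OC.sc (d.ta u'.2)
      rw [g4, Pool.M5.N2.ta_congr g2 g3]) (by
      intro u v s hu hv hW hs hG
      refine (size_gW hOK hS hCr hs hW hG).trans ?_
      refine (mul_le_mul_of_nonneg_right (Pool.OC.sc_spec (gW_ta hW)).2.le
        (by positivity)).trans ?_
      rw [← zpow_add₀ (by norm_num)]
      refine zpow_le_zpow_right₀ (by norm_num) ?_
      have : ((a + k + 2 * n + 10 : ℕ) : ℤ) ≤ k' := by exact_mod_cast hkk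
      push_cast at this ⊢
      linarith)
  rw [Finset.sum_Ico_eq_sum_range, show d.X - 8 * ns - 8 * ns = d.X - 16 * ns by omega] at h1
  refine le_trans ?_ h1
  have h2 : ∑ s ∈ range (d.X - 16 * ns), Ex (d.Q4 i) (Set.indicator
      {u | u ∈ gW b d m ns k₀ a ∧
        0 ≤ ((8 * ns + s : ℕ) : ℤ) + (m u.1 + Pool.OC.sc (d.ta u.2)) ∧
        (((8 * ns + s : ℕ) : ℤ) + (m u.1 + Pool.OC.sc (d.ta u.2))).toNat ∈ J u.2.1}
      (fun u => Pr (cond d.Qr (d.GA b m (8 * ns + s)) (d.GA b m (8 * ns + s) u.1))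
        {v | (2 : ℝ) ^ (-(((8 * ns + s : ℕ) : ℤ) + (m u.1 + Pool.OC.sc (d.ta u.2)) + k₁)) ≤
          |d.Z b (d.T u.2.1) (d.T u.2.2) (d.y (d.L (u.1 0)), d.c (d.L (u.1 0))) -
            d.Z b (d.T u.2.1) (d.T u.2.2) (d.y (d.L (v 0)), d.c (d.L (v 0)))|})) =
      Ex (d.Q4 i) (fun z => ∑ s ∈ range (d.X - 16 * ns), Set.indicator
      {u | u ∈ gW b d m ns k₀ a ∧
        0 ≤ ((8 * ns + s : ℕ) : ℤ) + (m u.1 + Pool.OC.sc (d.ta u.2)) ∧
        (((8 * ns + s : ℕ) : ℤ) + (m u.1 + Pool.OC.sc (d.ta u.2))).toNat ∈ J u.2.1}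
      (fun u : (Fin (n + 1) → d.Om) × (d.Om × d.Om) =>
        Pr (cond d.Qr (d.GA b m (8 * ns + s)) (d.GA b m (8 * ns + s) u.1))
        {v | (2 : ℝ) ^ (-(((8 * ns + s : ℕ) : ℤ) + (m u.1 + Pool.OC.sc (d.ta u.2)) + k₁)) ≤
          |d.Z b (d.T u.2.1) (d.T u.2.2) (d.y (d.L (u.1 0)), d.c (d.L (u.1 0))) -
            d.Z b (d.T u.2.1) (d.T u.2.2) (d.y (d.L (v 0)), d.c (d.L (v 0)))|}) z) := by
    unfold Ex
    simp only [Finset.mul_sum]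
    exact Finset.sum_comm
  refine le_trans ?_ h2.ge
  refine Ex_mono hQ.nonneg fun u hu => ?_
  obtain ⟨hQr, hQp, hP1, hP2, hL1, hL2, hT⟩ := Q4_pos d hOK.law hu
  have hi0 : ∀ s, 0 ≤ Set.indicator
      {u | u ∈ gW b d m ns k₀ a ∧
        0 ≤ ((8 * ns + s : ℕ) : ℤ) + (m u.1 + Pool.OC.sc (d.ta u.2)) ∧
        (((8 * ns + s : ℕ) : ℤ) + (m u.1 + Pool.OC.sc (d.ta u.2))).toNat ∈ J u.2.1}
      (fun u : (Fin (n + 1) → d.Om) × (d.Om × d.Om) =>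
        Pr (cond d.Qr (d.GA b m (8 * ns + s)) (d.GA b m (8 * ns + s) u.1))
        {v | (2 : ℝ) ^ (-(((8 * ns + s : ℕ) : ℤ) + (m u.1 + Pool.OC.sc (d.ta u.2)) + k₁)) ≤
          |d.Z b (d.T u.2.1) (d.T u.2.2) (d.y (d.L (u.1 0)), d.c (d.L (u.1 0))) -
            d.Z b (d.T u.2.1) (d.T u.2.2) (d.y (d.L (v 0)), d.c (d.L (v 0)))|}) u :=
    fun s => Set.indicator_nonneg (fun u _ => Pool.KAF.Pr_nonneg
      (fun v => cond_nonneg (Qr_nonneg d hOK.law.nonneg) _ _ v) _) u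
  by_cases hW : u ∈ gW b d m ns k₀ a
  · rw [if_pos hW]
    refine Finset.sum_le_sum fun s hs => ?_
    by_cases hJ : s + lv d u.2 ∈ Jf d J m ns u.1 u.2.1
    · rw [if_pos hJ]
      have f3 : (((8 * ns + (s + lv d u.2) : ℕ) : ℤ) + m u.1).toNat ∈ J u.2.1 := hJ
      have hta0 := gW_ta hW
      have hsc := Pool.OC.sc_ge hta0 (ta_lt hOK.law hu)
      have hsc0 : ((lv d u.2 : ℕ) : ℤ) = Pool.OC.sc (d.ta u.2) := by
        unfold lv
        exact Int.toNat_of_nonneg (by omega)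
      have e1 : ((8 * ns + (s + lv d u.2) : ℕ) : ℤ) + m u.1 =
          ((8 * ns + s : ℕ) : ℤ) + (m u.1 + Pool.OC.sc (d.ta u.2)) := by
        rw [← hsc0]
        push_cast
        ring
      rw [e1] at f3
      have hmw := hS.m1 u.1
      rw [Set.indicator_of_mem (show u ∈ {u | u ∈ gW b d m ns k₀ a ∧
        0 ≤ ((8 * ns + s : ℕ) : ℤ) + (m u.1 + Pool.OC.sc (d.ta u.2)) ∧
        (((8 * ns + s : ℕ) : ℤ) + (m u.1 + Pool.OC.sc (d.ta u.2))).toNat ∈ J u.2.1} from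
        ⟨hW, by push_cast; linarith [Int.natCast_nonneg s, Int.natCast_nonneg i,
          Int.natCast_nonneg ns], f3⟩)]
      refine Pool.KAF.Pr_mono (fun v => cond_nonneg (Qr_nonneg d hOK.law.nonneg) _ _ v)
        fun v hv hvb => ?_
      have hv1 := (cond_pos_iff (Qr_nonneg d hOK.law.nonneg) _ _ v).1 hv
      have hvb' : hk d m a k'' k₁ u.1 * Yk ns a s < |Fv b d ns u.1 u.2 v| := hvb
      have hpos : 0 ≤ hk d m a k'' k₁ u.1 * Yk ns a s := by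
        unfold hk Yk
        positivity
      refine bad_row hOK hS hCr hk₁ hW hv1.2 (j := Pool.OC.sc (d.ta u.2)) (k'' := k'') ?_
        (by linarith)
      refine le_trans (zpow_le_zpow_right₀ (by norm_num) ?_) (Pool.OC.sc_spec hta0).1
      linarith [Int.natCast_nonneg k'']
    · rw [if_neg hJ]
      exact hi0 s
  · rw [if_neg hW]
    exact Finset.sum_nonneg fun s _ => hi0 s

end Pool.M5.ALS
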