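import Pool.Agent.H20.M5.Geo
import Pool.Agent.H92.M5.AlsF

/-!
# L1, row ALS: the forms of the pairs
-/

set_option autoImplicit false

namespace Pool.M5.ALS

open Finset Real
open Pool.Agent.H49.Ent Pool.Agent.H32.Dense Pool.STK Pool.KAF Pool.M5 Pool.M5.N2

/-! ### a power to first order -/

theorem pow_taylor (a : ℕ) {x y : ℝ} (hx : 0 ≤ x) (hx1 : x ≤ 1) (hy : 0 ≤ y) (hy1 : y ≤ 1) :
    |x ^ (a + 1) - y ^ (a + 1) - (a + 1) * y ^ a * (x - y)| ≤ (a + 1) ^ 2 * (x - y) ^ 2 := by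
  induction a with
  | zero =>
    have e : x ^ (0 + 1) - y ^ (0 + 1) - ((0 : ℕ) + 1) * y ^ 0 * (x - y) = 0 := by
      push_cast
      ring
    rw [e, abs_zero]
    positivity
  | succ a ih =>
    have e : x ^ (a + 1 + 1) - y ^ (a + 1 + 1) - (((a + 1 : ℕ) : ℝ) + 1) * y ^ (a + 1) * (x - y) =
        x * (x ^ (a + 1) - y ^ (a + 1) - (a + 1) * y ^ a * (x - y)) +
          (a + 1) * y ^ a * (x - y) ^ 2 := by
      push_cast
      ring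
    rw [e]
    refine (abs_add_le _ _).trans ?_
    have h2 : y ^ a ≤ 1 := pow_le_one₀ hy hy1
    have h3 : 0 ≤ y ^ a := pow_nonneg hy a
    have h4 := sq_nonneg (x - y)
    have h5 : |((a : ℝ) + 1) * y ^ a * (x - y) ^ 2| ≤ (a + 1) * (x - y) ^ 2 := by
      rw [abs_of_nonneg (by positivity)]
      refine mul_le_mul_of_nonneg_right ?_ h4
      have : (0 : ℝ) ≤ a + 1 := by positivity
      nlinarith
    have h6 : |x * (x ^ (a + 1) - y ^ (a + 1) - (a + 1) * y ^ a * (x - y))| ≤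
        (a + 1) ^ 2 * (x - y) ^ 2 := by
      rw [abs_mul, abs_of_nonneg hx]
      calc x * |x ^ (a + 1) - y ^ (a + 1) - (a + 1) * y ^ a * (x - y)| ≤
          1 * |x ^ (a + 1) - y ^ (a + 1) - (a + 1) * y ^ a * (x - y)| :=
            mul_le_mul_of_nonneg_right hx1 (abs_nonneg _)
        _ ≤ _ := by rw [one_mul]; exact ih
    refine (add_le_add h6 h5).trans ?_
    push_cast
    have h7 : (0 : ℝ) ≤ a := Nat.cast_nonneg a
    nlinarith [mul_nonneg h7 h4]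

section

variable {k n : ℕ} {I : Type} [Fintype I] (b : Bas k I) (d : LDat k n I) (J : d.Om → Set ℕ)
  (m : (Fin (n + 1) → d.Om) → ℤ) (ns : ℕ)

/-- The form of a pair at a copy. -/
noncomputable def Fv (v : Fin (n + 1) → d.Om) (w : d.Om × d.Om) (v' : Fin (n + 1) → d.Om) : ℝ :=
  ∑ a, d.dt a w / d.ta w * cp b d v v' a - Bp d v (ch b d ns v w) v'

/-- The form of a base at a copy. -/
noncomputable def Fb (v : Fin (n + 1) → d.Om) (w : d.Om × d.Om) (v' : Fin (n + 1) → d.Om) : ℝ :=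
  ∑ a : Fin n, (((a : ℕ) : ℝ) + 1) * d.th (d.T w.1) ^ (a : ℕ) * cp b d v v' a -
    Bp d v (ch b d ns v w) v'

/-- The pairs near the reference. -/
def gW (k₀ a : ℕ) : Set ((Fin (n + 1) → d.Om) × (d.Om × d.Om)) :=
  {u | d.sep k₀ u.1 ∧ (2 : ℝ) ^ (-(2 * ns : ℤ)) ≤ |d.ta u.2| ∧
    ‖d.gr b (8 * ns) u‖ ≤ (n + 1) ^ 2 * (2 : ℝ) ^ ((a : ℤ) + 4 - m u.1) * |d.ta u.2|}

theorem gW_congr {k₀ a : ℕ} {u u' : (Fin (n + 1) → d.Om) × (d.Om × d.Om)}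
    (h : ∀ j, d.T (u.1 j) = d.T (u'.1 j)) (h1 : d.T u.2.1 = d.T u'.2.1)
    (h2 : d.T u.2.2 = d.T u'.2.2) (hm : m u.1 = m u'.1)
    (hy : d.y₀ (8 * ns) (d.L (u.1 0)) = d.y₀ (8 * ns) (d.L (u'.1 0))) :
    u ∈ gW b d m ns k₀ a ↔ u' ∈ gW b d m ns k₀ a := by
  unfold gW
  simp only [Set.mem_ofPred_eq]
  rw [sep_congr (k₀ := k₀) h, ta_congr h1 h2, gr_congr h h1 h2 hy, hm]

variable {b d m ns}

theorem gW_ta {k₀ a : ℕ} {u : (Fin (n + 1) → d.Om) × (d.Om × d.Om)}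
    (hu : u ∈ gW b d m ns k₀ a) : d.ta u.2 ≠ 0 := by
  intro h0
  have h1 := hu.2.1
  rw [h0, abs_zero] at h1
  have : (0 : ℝ) < (2 : ℝ) ^ (-(2 * ns : ℤ)) := by positivity
  linarith

/-- The main part of the difference of the forms. -/
theorem main_eq {u : (Fin (n + 1) → d.Om) × (d.Om × d.Om)} (h0 : d.ta u.2 ≠ 0)
    (v : Fin (n + 1) → d.Om) :
    ∑ a, d.dt a u.2 * (d.cs b u.1 a - d.cs b v a) -
        ∑ j, d.gr b (8 * ns) u j * (d.yR (d.L (u.1 0)) j - d.yR (d.L (v 0)) j) =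
      -(d.ta u.2 * Fv b d ns u.1 u.2 v) := by
  unfold Fv cp Bp ch
  rw [mul_sub, neg_sub, Finset.mul_sum, Finset.mul_sum]
  have e1 : ∑ j, d.ta u.2 * (d.gr b (8 * ns) (u.1, u.2) j / d.ta u.2 *
      (d.yR (d.L (v 0)) j - d.yR (d.L (u.1 0)) j)) =
      -∑ j, d.gr b (8 * ns) u j * (d.yR (d.L (u.1 0)) j - d.yR (d.L (v 0)) j) := by
    rw [← Finset.sum_neg_distrib]
    refine Finset.sum_congr rfl fun j _ => ?_
    have : d.gr b (8 * ns) (u.1, u.2) j = d.gr b (8 * ns) u j := rfl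
    rw [this]
    field_simp
    ring
  have e2 : ∑ a, d.ta u.2 * (d.dt a u.2 / d.ta u.2 * (d.cs b v a - d.cs b u.1 a)) =
      -∑ a, d.dt a u.2 * (d.cs b u.1 a - d.cs b v a) := by
    rw [← Finset.sum_neg_distrib]
    refine Finset.sum_congr rfl fun a _ => ?_
    field_simp
    ring
  rw [e1, e2]
  ring

theorem two_sn {n : ℕ} : ((n : ℝ) + 1) ^ 2 ≤ (2 : ℝ) ^ (2 * n) := by
  have h1 : ((n : ℝ) + 1) ≤ 2 ^ n := by
    have : n + 1 ≤ 2 ^ n := Nat.lt_two_pow_self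
    exact_mod_cast this
  calc ((n : ℝ) + 1) ^ 2 ≤ ((2 : ℝ) ^ n) ^ 2 := pow_le_pow_left₀ (by positivity) h1 2
    _ = (2 : ℝ) ^ (2 * n) := by rw [← pow_mul, mul_comm]

/-- The size of the difference of the forms. -/
theorem size_gW {A h k₀ a s : ℕ} {c : ℝ} (hOK : d.OK b A c) (hS : Siz b d ns h m c)
    (hCr : Cr n k₀ ≤ ns) (hs : 8 * ns ≤ s) {u : (Fin (n + 1) → d.Om) × (d.Om × d.Om)}
    {v : Fin (n + 1) → d.Om} (hu : u ∈ gW b d m ns k₀ a) (hG : d.GA b m s v = d.GA b m s u.1) :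
    |d.Z b (d.T u.2.1) (d.T u.2.2) (d.y (d.L (u.1 0)), d.c (d.L (u.1 0))) -
      d.Z b (d.T u.2.1) (d.T u.2.2) (d.y (d.L (v 0)), d.c (d.L (v 0)))| ≤
      |d.ta u.2| * (2 : ℝ) ^ ((a : ℤ) + 4 + k + 2 * n - (s + m u.1)) := by
  obtain ⟨hu1, hu2, hu3⟩ := hu
  have h1 := zr_close hOK hS hCr hs hu1 hG
  set D := d.Z b (d.T u.2.1) (d.T u.2.2) (d.y (d.L (u.1 0)), d.c (d.L (u.1 0))) -
      d.Z b (d.T u.2.1) (d.T u.2.2) (d.y (d.L (v 0)), d.c (d.L (v 0))) with hD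
  set A1 := ∑ a, d.dt a u.2 * (d.cs b u.1 a - d.cs b v a) with hA1
  set A2 := ∑ j, d.gr b (8 * ns) u j * (d.yR (d.L (u.1 0)) j - d.yR (d.L (v 0)) j) with hA2
  have hml := hS.m1 u.1
  have hmu := hS.m2 u.1
  have hs0 : (0 : ℝ) < (2 : ℝ) ^ (-((s : ℤ) + m u.1)) := by positivity
  have hy : ∀ j, |d.yR (d.L (u.1 0)) j - d.yR (d.L (v 0)) j| ≤ (2 : ℝ) ^ (-(s : ℤ)) :=
    fun j => GA_dy hG j
  have hyn : ‖d.yR (d.L (u.1 0)) - d.yR (d.L (v 0))‖ ≤ (2 : ℝ) ^ (-(s : ℤ)) := by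
    rw [pi_norm_le_iff_of_nonneg (by positivity)]
    intro j
    exact hy j
  -- the three parts
  have b1 : |A1| ≤ (n : ℝ) ^ 2 * (|d.ta u.2| * (2 : ℝ) ^ (-((s : ℤ) + m u.1))) := by
    have := sum_dt_le hOK.hth u.2 (fun a => d.cs b u.1 a - d.cs b v a)
      (fun a => GA_dcs hG a)
    refine this.trans (le_of_eq (by ring))
  have b2 : |A2| ≤ (k : ℝ) * ((n + 1) ^ 2 * (2 : ℝ) ^ ((a : ℤ) + 4)) *
      (|d.ta u.2| * (2 : ℝ) ^ (-((s : ℤ) + m u.1))) := by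
    refine (Finset.abs_sum_le_sum_abs _ _).trans ?_
    have g1 : ∀ j ∈ (univ : Finset (Fin k)), |d.gr b (8 * ns) u j *
        (d.yR (d.L (u.1 0)) j - d.yR (d.L (v 0)) j)| ≤
        ((n + 1) ^ 2 * (2 : ℝ) ^ ((a : ℤ) + 4 - m u.1) * |d.ta u.2|) * (2 : ℝ) ^ (-(s : ℤ)) := by
      intro j _
      rw [abs_mul]
      exact mul_le_mul ((norm_le_pi_norm (d.gr b (8 * ns) u) j).trans hu3) (hy j)
        (abs_nonneg _) (by positivity)
    refine (Finset.sum_le_sum g1).trans (le_of_eq ?_)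
    rw [Finset.sum_const, Finset.card_univ, Fintype.card_fin, nsmul_eq_mul]
    have e1 : (2 : ℝ) ^ ((a : ℤ) + 4 - m u.1) * (2 : ℝ) ^ (-(s : ℤ)) =
        (2 : ℝ) ^ ((a : ℤ) + 4) * (2 : ℝ) ^ (-((s : ℤ) + m u.1)) := by
      rw [← zpow_add₀ (by norm_num), ← zpow_add₀ (by norm_num)]
      congr 1
      ring
    calc (k : ℝ) * ((n + 1) ^ 2 * (2 : ℝ) ^ ((a : ℤ) + 4 - m u.1) * |d.ta u.2| *
        (2 : ℝ) ^ (-(s : ℤ))) = (k : ℝ) * (n + 1) ^ 2 * |d.ta u.2| *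
          ((2 : ℝ) ^ ((a : ℤ) + 4 - m u.1) * (2 : ℝ) ^ (-(s : ℤ))) := by ring
      _ = _ := by rw [e1]; ring
  have b3 : |D - (A1 - A2)| ≤ |d.ta u.2| * (2 : ℝ) ^ (-((s : ℤ) + m u.1)) := by
    refine h1.trans ((mul_le_mul_of_nonneg_left hyn (by positivity)).trans ?_)
    refine le_trans ?_ (mul_le_mul_of_nonneg_right hu2 hs0.le)
    rw [← zpow_add₀ (by norm_num), ← zpow_add₀ (by norm_num)]
    refine zpow_le_zpow_right₀ (by norm_num) ?_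
    have : (0 : ℤ) ≤ ns := Int.natCast_nonneg ns
    linarith
  have hU : (0 : ℝ) ≤ |d.ta u.2| * (2 : ℝ) ^ (-((s : ℤ) + m u.1)) := by positivity
  set U := |d.ta u.2| * (2 : ℝ) ^ (-((s : ℤ) + m u.1)) with hUdef
  have b4 : |D| ≤ ((n : ℝ) ^ 2 + k * ((n + 1) ^ 2 * (2 : ℝ) ^ ((a : ℤ) + 4)) + 1) * U := by
    have e1 : D = (D - (A1 - A2)) + (A1 - A2) := by ring
    have e2 := abs_add_le (D - (A1 - A2)) (A1 - A2)
    rw [← e1] at e2
    have e3 := abs_sub A1 A2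
    have e4 : ((n : ℝ) ^ 2 + k * ((n + 1) ^ 2 * (2 : ℝ) ^ ((a : ℤ) + 4)) + 1) * U =
      (n : ℝ) ^ 2 * U + (k : ℝ) * ((n + 1) ^ 2 * (2 : ℝ) ^ ((a : ℤ) + 4)) * U + U := by ring
    rw [e4]
    linarith
  refine b4.trans ?_
  have b5 : (n : ℝ) ^ 2 + k * ((n + 1) ^ 2 * (2 : ℝ) ^ ((a : ℤ) + 4)) + 1 ≤
      (2 : ℝ) ^ ((a : ℤ) + 4 + k + 2 * n) := by
    have c1 : (1 : ℝ) ≤ (2 : ℝ) ^ ((a : ℤ) + 4) := by
      refine one_le_zpow₀ (by norm_num) ?_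
      positivity
    have c2 : ((k : ℝ) + 1) ≤ 2 ^ k := by
      have : k + 1 ≤ 2 ^ k := Nat.lt_two_pow_self
      exact_mod_cast this
    have c3 := two_sn (n := n)
    have c4 : (2 : ℝ) ^ ((a : ℤ) + 4 + k + 2 * n) =
        (2 : ℝ) ^ k * (2 : ℝ) ^ (2 * n) * (2 : ℝ) ^ ((a : ℤ) + 4) := by
      rw [← zpow_natCast, ← zpow_natCast, ← zpow_add₀ (by norm_num), ← zpow_add₀ (by norm_num)]
      congr 1
      push_cast
      ring
    rw [c4]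
    have c5 : (0 : ℝ) ≤ (n : ℝ) := Nat.cast_nonneg n
    have c6 : ((n : ℝ) ^ 2 + 1) ≤ (n + 1) ^ 2 * (2 : ℝ) ^ ((a : ℤ) + 4) := by
      calc ((n : ℝ) ^ 2 + 1) ≤ (n + 1) ^ 2 * 1 := by nlinarith
        _ ≤ _ := mul_le_mul_of_nonneg_left c1 (by positivity)
    calc (n : ℝ) ^ 2 + k * ((n + 1) ^ 2 * (2 : ℝ) ^ ((a : ℤ) + 4)) + 1 ≤
        (k + 1) * (n + 1) ^ 2 * (2 : ℝ) ^ ((a : ℤ) + 4) := by nlinarith
      _ ≤ _ := mul_le_mul_of_nonneg_right (mul_le_mul c2 c3 (by positivity) (by positivity))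
          (by positivity)
  refine (mul_le_mul_of_nonneg_right b5 hU).trans (le_of_eq ?_)
  rw [hUdef]
  have e1 : (2 : ℝ) ^ ((a : ℤ) + 4 + k + 2 * n - (s + m u.1)) =
      (2 : ℝ) ^ ((a : ℤ) + 4 + k + 2 * n) * (2 : ℝ) ^ (-((s : ℤ) + m u.1)) := by
    rw [← zpow_add₀ (by norm_num)]
    rfl
  rw [e1]
  ring

/-- The difference of the forms in terms of the form. -/
theorem low_gW {A h k₀ a s : ℕ} {c : ℝ} (hOK : d.OK b A c) (hS : Siz b d ns h m c)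
    (hCr : Cr n k₀ ≤ ns) (hs : 8 * ns ≤ s) {u : (Fin (n + 1) → d.Om) × (d.Om × d.Om)}
    {v : Fin (n + 1) → d.Om} (hu : u ∈ gW b d m ns k₀ a) (hG : d.GA b m s v = d.GA b m s u.1) :
    |d.ta u.2| * (|Fv b d ns u.1 u.2 v| - (2 : ℝ) ^ (-(4 * ns : ℤ) - 30 - s)) ≤
    |d.Z b (d.T u.2.1) (d.T u.2.2) (d.y (d.L (u.1 0)), d.c (d.L (u.1 0))) -
      d.Z b (d.T u.2.1) (d.T u.2.2) (d.y (d.L (v 0)), d.c (d.L (v 0)))| := by
  have h0 := gW_ta hu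
  obtain ⟨hu1, hu2, hu3⟩ := hu
  have h1 := zr_close hOK hS hCr hs hu1 hG
  rw [main_eq h0] at h1
  set D := d.Z b (d.T u.2.1) (d.T u.2.2) (d.y (d.L (u.1 0)), d.c (d.L (u.1 0))) -
      d.Z b (d.T u.2.1) (d.T u.2.2) (d.y (d.L (v 0)), d.c (d.L (v 0))) with hD
  have hyn : ‖d.yR (d.L (u.1 0)) - d.yR (d.L (v 0))‖ ≤ (2 : ℝ) ^ (-(s : ℤ)) := by
    rw [pi_norm_le_iff_of_nonneg (by positivity)]
    intro j
    exact GA_dy hG j
  have b3 : |D - -(d.ta u.2 * Fv b d ns u.1 u.2 v)| ≤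
      |d.ta u.2| * (2 : ℝ) ^ (-(4 * ns : ℤ) - 30 - s) := by
    refine h1.trans ((mul_le_mul_of_nonneg_left hyn (by positivity)).trans ?_)
    refine le_trans (le_of_eq ?_) (mul_le_mul_of_nonneg_right hu2 (by positivity))
    rw [← zpow_add₀ (by norm_num), ← zpow_add₀ (by norm_num)]
    congr 1
    ring
  have b4 : |d.ta u.2 * Fv b d ns u.1 u.2 v| ≤
      |D| + |D - -(d.ta u.2 * Fv b d ns u.1 u.2 v)| := by
    have e1 : d.ta u.2 * Fv b d ns u.1 u.2 v =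
        (D - -(d.ta u.2 * Fv b d ns u.1 u.2 v)) - D := by ring
    have e2 := abs_sub (D - -(d.ta u.2 * Fv b d ns u.1 u.2 v)) D
    rw [← e1] at e2
    linarith
  rw [abs_mul] at b4
  rw [mul_sub]
  linarith

/-- The two forms of a pair are near. -/
theorem Fv_Fb {A : ℕ} {c : ℝ} (hOK : d.OK b A c) {s : ℕ} {v : Fin (n + 1) → d.Om}
    {w : d.Om × d.Om} {v' : Fin (n + 1) → d.Om} (h0 : d.ta w ≠ 0)
    (hG : d.GA b m s v' = d.GA b m s v) :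
    |Fb b d ns v w v' - Fv b d ns v w v'| ≤ (n : ℝ) ^ 3 * |d.ta w| *
      (2 : ℝ) ^ (-((s : ℤ) + m v)) := by
  have e1 : Fb b d ns v w v' - Fv b d ns v w v' =
      ∑ a : Fin n, ((((a : ℕ) : ℝ) + 1) * d.th (d.T w.1) ^ (a : ℕ) - d.dt a w / d.ta w) *
        cp b d v v' a := by
    unfold Fb Fv
    rw [sub_sub_sub_cancel_right, ← Finset.sum_sub_distrib]
    exact Finset.sum_congr rfl fun a _ => by ring
  rw [e1]
  refine (Finset.abs_sum_le_sum_abs _ _).trans ?_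
  have h1 : ∀ a ∈ (univ : Finset (Fin n)), |((((a : ℕ) : ℝ) + 1) * d.th (d.T w.1) ^ (a : ℕ) -
      d.dt a w / d.ta w) * cp b d v v' a| ≤
      (n : ℝ) ^ 2 * |d.ta w| * (2 : ℝ) ^ (-((s : ℤ) + m v)) := by
    intro a _
    rw [abs_mul]
    refine mul_le_mul ?_ ?_ (abs_nonneg _) (by positivity)
    · have k1 := hOK.hth (d.T w.2)
      have k2 := hOK.hth (d.T w.1)
      have k3 := pow_taylor (a : ℕ) k1.1 k1.2.le k2.1 k2.2.le
      have k4 : d.th (d.T w.2) ^ ((a : ℕ) + 1) - d.th (d.T w.1) ^ ((a : ℕ) + 1) = d.dt a w := rfl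
      have k5 : d.th (d.T w.2) - d.th (d.T w.1) = d.ta w := rfl
      rw [k4, k5] at k3
      have k6 : (((a : ℕ) : ℝ) + 1) * d.th (d.T w.1) ^ (a : ℕ) - d.dt a w / d.ta w =
          -(d.dt a w - ((a : ℕ) + 1) * d.th (d.T w.1) ^ (a : ℕ) * d.ta w) / d.ta w := by
        field_simp
        ring
      rw [k6, abs_div, abs_neg, div_le_iff₀ (abs_pos.2 h0)]
      refine k3.trans ?_
      have k7 : d.ta w ^ 2 = |d.ta w| * |d.ta w| := by rw [← sq, sq_abs]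
      rw [k7, ← mul_assoc]
      refine mul_le_mul_of_nonneg_right (mul_le_mul_of_nonneg_right ?_ (abs_nonneg _))
        (abs_nonneg _)
      have k8 : ((a : ℕ) : ℝ) + 1 ≤ n := by exact_mod_cast a.isLt
      exact pow_le_pow_left₀ (by positivity) k8 2
    · unfold cp
      have := GA_dcs hG.symm a
      rw [GA_m hG] at this
      exact this
  refine (Finset.sum_le_sum h1).trans (le_of_eq ?_)
  rw [Finset.sum_const, Finset.card_univ, Fintype.card_fin, nsmul_eq_mul]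
  ring

end

end Pool.M5.ALS
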