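import Pool.Agent.H21.M5.Zr2
import Pool.Agent.H20.OC.Geo

/-!
# M5: the cells of L1 and their digits; laws of tuples
-/

set_option autoImplicit false

namespace Pool.M5.ALS

open Finset Real
open Pool.Agent.H49.Ent Pool.Agent.H32.Dense Pool.STK Pool.KAF Pool.M5 Pool.M5.N2

/-! ### floors -/

theorem flr_le {r s : ℕ} (hrs : r ≤ s) {x x' : ℝ}
    (h : ⌊(2 : ℝ) ^ s * x⌋ = ⌊(2 : ℝ) ^ s * x'⌋) : ⌊(2 : ℝ) ^ r * x⌋ = ⌊(2 : ℝ) ^ r * x'⌋ := by
  obtain ⟨j, rfl⟩ := Nat.exists_eq_add_of_le hrs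
  induction j with
  | zero => exact h
  | succ j ih =>
    refine ih (by omega) ?_
    refine Pool.OC.floor_half ?_
    have e : ∀ x : ℝ, 2 * ((2 : ℝ) ^ (r + j) * x) = (2 : ℝ) ^ (r + (j + 1)) * x := fun x => by
      rw [← mul_assoc, ← pow_succ', ← Nat.add_assoc]
    rw [e, e]
    exact h

section

variable {k n : ℕ} {I : Type} [Fintype I] (b : Bas k I) (d : LDat k n I) (m : (Fin (n + 1) → d.Om) → ℤ)

/-! ### the cells -/

theorem GA_fy {s : ℕ} {v v' : Fin (n + 1) → d.Om} (h : d.GA b m s v = d.GA b m s v')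
    (j : Fin k) : ⌊(2 : ℝ) ^ s * d.yR (d.L (v 0)) j⌋ = ⌊(2 : ℝ) ^ s * d.yR (d.L (v' 0)) j⌋ := by
  unfold LDat.GA at h
  simp only [Prod.mk.injEq] at h
  exact congrFun h.2.1 j

theorem GA_fc {s : ℕ} {v v' : Fin (n + 1) → d.Om} (h : d.GA b m s v = d.GA b m s v')
    (a : Fin n) : ⌊(2 : ℝ) ^ ((s : ℤ) + m v') * d.cs b v a⌋ =
      ⌊(2 : ℝ) ^ ((s : ℤ) + m v') * d.cs b v' a⌋ := by
  have hm := GA_m h
  unfold LDat.GA at h
  simp only [Prod.mk.injEq] at h
  have h1 := congrFun h.2.2 a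
  rw [hm] at h1
  exact h1

theorem GA_y₀ {r s : ℕ} (hrs : r ≤ s) {v v' : Fin (n + 1) → d.Om}
    (h : d.GA b m s v = d.GA b m s v') : d.y₀ r (d.L (v 0)) = d.y₀ r (d.L (v' 0)) := by
  unfold LDat.y₀
  funext j
  rw [flr_le hrs (GA_fy b d m h j)]

theorem GA_nest {s : ℕ} {v v' : Fin (n + 1) → d.Om}
    (h : d.GA b m (s + 1) v = d.GA b m (s + 1) v') : d.GA b m s v = d.GA b m s v' := by
  have h1 := GA_T h
  have h2 := GA_m h
  have h3 := GA_fy b d m h
  have h4 := GA_fc b d m h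
  unfold LDat.GA
  rw [h2]
  simp only [Prod.mk.injEq]
  refine ⟨⟨funext h1, trivial⟩, funext fun j => flr_le (Nat.le_succ s) (h3 j), funext fun a => ?_⟩
  refine Pool.OC.floor_half ?_
  have e : ∀ x : ℝ, 2 * ((2 : ℝ) ^ ((s : ℤ) + m v') * x) =
      (2 : ℝ) ^ (((s + 1 : ℕ) : ℤ) + m v') * x := fun x => by
    rw [← mul_assoc, ← zpow_one_add₀ (by norm_num)]
    congr 2
    push_cast
    ring
  rw [e, e]
  exact h4 a

/-- The digits of the subcell. -/
noncomputable def dgA (s : ℕ) (v : Fin (n + 1) → d.Om) : (Fin k → ℤ) × (Fin n → ℤ) :=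
  (fun j => ⌊(2 : ℝ) * ((2 : ℝ) ^ s * d.yR (d.L (v 0)) j)⌋ -
    2 * ⌊(2 : ℝ) ^ s * d.yR (d.L (v 0)) j⌋,
    fun a => ⌊(2 : ℝ) * ((2 : ℝ) ^ ((s : ℤ) + m v) * d.cs b v a)⌋ -
    2 * ⌊(2 : ℝ) ^ ((s : ℤ) + m v) * d.cs b v a⌋)

theorem dgA_mem (s : ℕ) (v : Fin (n + 1) → d.Om) :
    dgA b d m s v ∈ ((Fintype.piFinset fun _ : Fin k => ({0, 1} : Finset ℤ)) ×ˢ
      (Fintype.piFinset fun _ : Fin n => ({0, 1} : Finset ℤ))) := by
  unfold dgA
  simp only [Finset.mem_product, Fintype.mem_piFinset, Finset.mem_insert, Finset.mem_singleton]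
  exact ⟨fun _ => Pool.OC.floor_digit _, fun _ => Pool.OC.floor_digit _⟩

theorem dg_card : ((Fintype.piFinset fun _ : Fin k => ({0, 1} : Finset ℤ)) ×ˢ
      (Fintype.piFinset fun _ : Fin n => ({0, 1} : Finset ℤ))).card = 2 ^ (k + n) := by
  rw [Finset.card_product, Fintype.card_piFinset, Fintype.card_piFinset]
  simp only [Finset.prod_const, Finset.card_univ, Fintype.card_fin]
  rw [show ({0, 1} : Finset ℤ).card = 2 from rfl, ← pow_add]

theorem GA_sub {s : ℕ} {v v' : Fin (n + 1) → d.Om} (h : d.GA b m s v = d.GA b m s v')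
    (ho : dgA b d m s v = dgA b d m s v') : d.GA b m (s + 1) v = d.GA b m (s + 1) v' := by
  have h1 := GA_T h
  have h2 := GA_m h
  have h3 := GA_fy b d m h
  have h4 := GA_fc b d m h
  unfold dgA at ho
  rw [h2] at ho
  simp only [Prod.mk.injEq] at ho
  unfold LDat.GA
  rw [h2]
  simp only [Prod.mk.injEq]
  refine ⟨⟨funext h1, trivial⟩, funext fun j => ?_, funext fun a => ?_⟩
  · have f1 : ∀ x : ℝ, (2 : ℝ) ^ (s + 1) * x = 2 * ((2 : ℝ) ^ s * x) := fun x => by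
      rw [← mul_assoc, ← pow_succ']
    rw [f1, f1]
    have h5 := congrFun ho.1 j
    rw [h3 j] at h5
    linarith
  · have f2 : ∀ x : ℝ, (2 : ℝ) ^ (((s + 1 : ℕ) : ℤ) + m v') * x =
        2 * ((2 : ℝ) ^ ((s : ℤ) + m v') * x) := fun x => by
      rw [← mul_assoc, ← zpow_one_add₀ (by norm_num)]
      congr 2
      push_cast
      ring
    rw [f2, f2]
    have h5 := congrFun ho.2 a
    rw [h4 a] at h5
    linarith

/-! ### the laws of the tuples -/

theorem law_Qr (hP : ∀ ω, 0 ≤ d.P ω) (z : d.Lam) :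
    law d.Qr (fun v => d.L (v 0)) z = law d.P d.L z := by
  classical
  have h1 : ∀ v : Fin (n + 1) → d.Om, (if d.L (v 0) = z then d.Qr v else 0) =
      (∏ j, (if d.L (v j) = z then d.P (v j) else 0)) / law d.P d.L z ^ n := by
    intro v
    by_cases hz : d.L (v 0) = z
    · rw [if_pos hz]
      unfold LDat.Qr
      by_cases hv : ∀ j, d.L (v j) = d.L (v 0)
      · rw [if_pos hv, hz]
        congr 1
        refine Finset.prod_congr rfl fun j _ => ?_
        rw [if_pos ((hv j).trans hz)]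
      · rw [if_neg hv]
        push Not at hv
        obtain ⟨j, hj⟩ := hv
        rw [Finset.prod_eq_zero (mem_univ j) (by rw [if_neg fun h => hj (h.trans hz.symm)]),
          zero_div]
    · rw [if_neg hz, Finset.prod_eq_zero (mem_univ 0) (by rw [if_neg hz]), zero_div]
  have h2 : law d.Qr (fun v => d.L (v 0)) z = (law d.P d.L z) ^ (n + 1) / law d.P d.L z ^ n := by
    have h3 : law d.Qr (fun v => d.L (v 0)) z =
        ∑ v : Fin (n + 1) → d.Om, (if d.L (v 0) = z then d.Qr v else 0) := by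
      unfold law
      refine Finset.sum_congr rfl fun v _ => ?_
      by_cases h : d.L (v 0) = z
      · simp only [if_pos h]
      · simp only [if_neg h]
    rw [h3, Finset.sum_congr rfl fun v _ => h1 v, ← Finset.sum_div]
    congr 1
    have h4 := Finset.prod_univ_sum (fun _ : Fin (n + 1) => (univ : Finset d.Om))
      (fun _ ω => if d.L ω = z then d.P ω else 0)
    rw [Finset.prod_const, Finset.card_univ, Fintype.card_fin] at h4
    have h5 : law d.P d.L z = ∑ ω, (if d.L ω = z then d.P ω else 0) := by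
      unfold law
      refine Finset.sum_congr rfl fun ω _ => ?_
      by_cases h : d.L ω = z
      · simp only [if_pos h]
      · simp only [if_neg h]
    rw [h5, h4, Fintype.piFinset_univ]
  rw [h2]
  rcases eq_or_ne (law d.P d.L z) 0 with h | h
  · rw [h, zero_pow (by omega), zero_div]
  · rw [pow_succ', mul_div_assoc, div_self (pow_ne_zero n h), mul_one]

theorem Qr_nonneg (hP : ∀ ω, 0 ≤ d.P ω) (v : Fin (n + 1) → d.Om) : 0 ≤ d.Qr v := by
  unfold LDat.Qr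
  split_ifs
  · exact div_nonneg (Finset.prod_nonneg fun j _ => hP _) (pow_nonneg (law_nonneg hP _ _) _)
  · exact le_rfl

theorem Qr_law (hP : IsLaw d.P) : IsLaw d.Qr := by
  classical
  refine ⟨Qr_nonneg d hP.nonneg, ?_⟩
  have h1 : ∑ v, d.Qr v = ∑ z ∈ univ.image (fun v : Fin (n + 1) → d.Om => d.L (v 0)),
      law d.Qr (fun v => d.L (v 0)) z := (sum_law _ _).symm
  have h2 : ∑ z ∈ univ.image d.L, law d.P d.L z = 1 := by rw [sum_law, hP.sum_one]
  rw [h1, ← h2]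
  have h3 : univ.image (fun v : Fin (n + 1) → d.Om => d.L (v 0)) = univ.image d.L := by
    ext z
    simp only [mem_image, mem_univ, true_and]
    constructor
    · rintro ⟨v, rfl⟩
      exact ⟨v 0, rfl⟩
    · rintro ⟨ω, rfl⟩
      exact ⟨fun _ => ω, rfl⟩
  rw [h3]
  exact Finset.sum_congr rfl fun z _ => law_Qr d hP.nonneg z

theorem Qr_pos (hP : ∀ ω, 0 ≤ d.P ω) {v : Fin (n + 1) → d.Om} (hv : 0 < d.Qr v) :
    ∀ j, 0 < d.P (v j) ∧ d.L (v j) = d.L (v 0) := by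
  unfold LDat.Qr at hv
  split_ifs at hv with h
  · intro j
    refine ⟨?_, h j⟩
    by_contra hc
    have h0 : d.P (v j) = 0 := le_antisymm (not_lt.1 hc) (hP _)
    rw [Finset.prod_eq_zero (mem_univ j) h0, zero_div] at hv
    exact lt_irrefl _ hv
  · exact absurd hv (lt_irrefl _)

theorem law_Qp (hP : IsLaw d.P) (i : ℕ) (z : d.Lam) :
    law (d.Qp i) (fun w => d.L w.1) z = law d.P d.L z :=
  Marg.law (dbl_fst (b := fun ω => (d.L ω, d.Ti i ω)) hP.nonneg) d.L z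

theorem Qp_law (hP : IsLaw d.P) (i : ℕ) : IsLaw (d.Qp i) :=
  ⟨fun w => dbl_nonneg hP.nonneg w, Pool.KAL.FRM.dbl_sum hP _⟩

/-- A reference, then the base sample, then its partner. -/
theorem Ex_Q4 (hP : IsLaw d.P) (i : ℕ) (F : (Fin (n + 1) → d.Om) × (d.Om × d.Om) → ℝ) :
    Ex (d.Q4 i) F = Ex d.Qr (fun v => Ex (cond d.P d.L (d.L (v 0))) (fun t =>
      Ex (cond d.P (fun ω => (d.L ω, d.Ti i ω)) (d.L t, d.Ti i t)) (fun t' => F (v, (t, t'))))) := by
  classical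
  unfold Ex
  rw [Fintype.sum_prod_type]
  refine Finset.sum_congr rfl fun v _ => ?_
  rw [Finset.mul_sum, Fintype.sum_prod_type]
  refine Finset.sum_congr rfl fun t _ => ?_
  beta_reduce
  rw [Finset.mul_sum, Finset.mul_sum]
  refine Finset.sum_congr rfl fun t' _ => ?_
  unfold LDat.Q4 glue
  simp only
  rw [law_Qr d hP.nonneg]
  unfold LDat.Qp Pool.Agent.H32.Dense.dbl glue Pool.Agent.H49.Ent.cond
  by_cases h : d.L (v 0) = d.L t
  · rw [if_pos h, if_pos h.symm]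
    by_cases h' : (d.L t, d.Ti i t) = (d.L t', d.Ti i t')
    · rw [if_pos h', if_pos h'.symm]
      ring
    · rw [if_neg h', if_neg (fun h'' => h' h''.symm)]
      ring
  · rw [if_neg h, if_neg (fun h' => h h'.symm)]
    ring

theorem Q4_nonneg (hP : IsLaw d.P) (i : ℕ) (u : (Fin (n + 1) → d.Om) × (d.Om × d.Om)) :
    0 ≤ d.Q4 i u := glue_nonneg (Qr_nonneg d hP.nonneg) (Qp_law d hP i).nonneg u

theorem Q4_law (hP : IsLaw d.P) (i : ℕ) : IsLaw (d.Q4 i) := by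
  refine ⟨Q4_nonneg d hP i, ?_⟩
  have h1 := sum_glue (p₁ := d.Qr) (p₂ := d.Qp i) (Z₁ := fun v => d.L (v 0))
    (Z₂ := fun w => d.L w.1) (Qr_nonneg d hP.nonneg)
    (fun z => (law_Qr d hP.nonneg z).trans (law_Qp d hP i z).symm)
  rw [(Qr_law d hP).sum_one] at h1
  exact h1

theorem Q4_pos (hP : IsLaw d.P) {i : ℕ} {u : (Fin (n + 1) → d.Om) × (d.Om × d.Om)}
    (hu : 0 < d.Q4 i u) : 0 < d.Qr u.1 ∧ 0 < d.Qp i u.2 ∧ 0 < d.P u.2.1 ∧ 0 < d.P u.2.2 ∧
      d.L (u.1 0) = d.L u.2.1 ∧ d.L u.2.1 = d.L u.2.2 ∧ d.Ti i u.2.1 = d.Ti i u.2.2 := by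
  obtain ⟨h1, h2, h3⟩ := (glue_pos_iff (Z₁ := fun v : Fin (n + 1) → d.Om => d.L (v 0))
    (Z₂ := fun w : d.Om × d.Om => d.L w.1) (Qr_nonneg d hP.nonneg) (Qp_law d hP i).nonneg u).1 hu
  obtain ⟨h4, h5, h6⟩ := (glue_pos_iff (Z₁ := fun ω => (d.L ω, d.Ti i ω))
    (Z₂ := fun ω => (d.L ω, d.Ti i ω)) hP.nonneg hP.nonneg u.2).1 h2
  exact ⟨h1, h2, h4, h5, h3, (Prod.ext_iff.1 h6).1, (Prod.ext_iff.1 h6).2⟩

/-- The times of a pair are near. -/
theorem Ti_near {i : ℕ} {ω ω' : d.Om} (h : d.Ti i ω = d.Ti i ω') :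
    |d.th (d.T ω') - d.th (d.T ω)| < (2 : ℝ) ^ (-(i : ℤ)) := by
  unfold LDat.Ti at h
  have h1 := Int.abs_sub_lt_one_of_floor_eq_floor h
  rw [← mul_sub, abs_mul, abs_of_pos (by positivity : (0 : ℝ) < 2 ^ i)] at h1
  rw [abs_sub_comm, zpow_neg, zpow_natCast, ← one_div, lt_div_iff₀ (by positivity), mul_comm]
  exact h1

end

end Pool.M5.ALS
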