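import Pool.Agent.H20.M5.Frm

/-!
# L1, row ALS: the means
-/

set_option autoImplicit false

namespace Pool.M5.ALS

open Finset Real
open Pool.Agent.H49.Ent Pool.Agent.H32.Dense Pool.STK Pool.KAF Pool.M5 Pool.M5.N2

variable {k n : ℕ} {I : Type} [Fintype I] (b : Bas k I) (d : LDat k n I) (J : d.Om → Set ℕ)
  (m : (Fin (n + 1) → d.Om) → ℤ) (ns : ℕ)

/-! ### small subcells -/

open Classical in
/-- The depths with a small subcell. -/
noncomputable def Bf (η : ℝ) (v : Fin (n + 1) → d.Om) : Finset ℕ :=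
  (range (d.X - 16 * ns)).filter (fun s =>
    law d.Qr (d.GA b m (8 * ns + s + 1)) (d.GA b m (8 * ns + s + 1) v) <
      η * law d.Qr (d.GA b m (8 * ns + s)) (d.GA b m (8 * ns + s) v))

theorem Bf_mean {A : ℕ} {c : ℝ} (hOK : d.OK b A c) {η : ℝ} (hη : 0 ≤ η) :
    Ex d.Qr (fun v => ((Bf b d m ns η v).card : ℝ)) ≤
      2 ^ (k + n) * η * ((d.X - 16 * ns : ℕ) : ℝ) := by
  classical
  have h1 : ∀ v, ((Bf b d m ns η v).card : ℝ) = ∑ s ∈ range (d.X - 16 * ns),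
      (if v ∈ {v | law d.Qr (d.GA b m (8 * ns + s + 1)) (d.GA b m (8 * ns + s + 1) v) <
      η * law d.Qr (d.GA b m (8 * ns + s)) (d.GA b m (8 * ns + s) v)}
      then (1 : ℝ) else 0) := by
    intro v
    unfold Bf
    rw [Finset.card_filter]
    push_cast
    refine Finset.sum_congr rfl fun s _ => ?_
    simp only [Set.mem_ofPred_eq]
  simp only [h1]
  have h2 : Ex d.Qr (fun v => ∑ s ∈ range (d.X - 16 * ns),
      (if v ∈ {v | law d.Qr (d.GA b m (8 * ns + s + 1)) (d.GA b m (8 * ns + s + 1) v) <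
      η * law d.Qr (d.GA b m (8 * ns + s)) (d.GA b m (8 * ns + s) v)}
      then (1 : ℝ) else 0)) = ∑ s ∈ range (d.X - 16 * ns), Ex d.Qr (fun v =>
      (if v ∈ {v | law d.Qr (d.GA b m (8 * ns + s + 1)) (d.GA b m (8 * ns + s + 1) v) <
      η * law d.Qr (d.GA b m (8 * ns + s)) (d.GA b m (8 * ns + s) v)}
      then (1 : ℝ) else 0)) := by
    unfold Ex
    simp only [Finset.mul_sum]
    exact Finset.sum_comm
  rw [h2]
  have h3 : ∀ s ∈ range (d.X - 16 * ns), Ex d.Qr (fun v =>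
      (if v ∈ {v | law d.Qr (d.GA b m (8 * ns + s + 1)) (d.GA b m (8 * ns + s + 1) v) <
      η * law d.Qr (d.GA b m (8 * ns + s)) (d.GA b m (8 * ns + s) v)}
      then (1 : ℝ) else 0)) ≤ 2 ^ (k + n) * η := by
    intro s _
    rw [Pool.M5T.Ex_ind]
    have := Pool.M5T.ratio (Qr_law d hOK.law) (d.GA b m (8 * ns + s))
      (d.GA b m (8 * ns + s + 1)) (dgA b d m (8 * ns + s))
      ((Fintype.piFinset fun _ : Fin k => ({0, 1} : Finset ℤ)) ×ˢ
        (Fintype.piFinset fun _ : Fin n => ({0, 1} : Finset ℤ))) (fun v => dgA_mem b d m _ _)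
      (fun v v' h => GA_nest b d m h) (fun v v' h h' => GA_sub b d m h h') η hη
    rw [dg_card] at this
    push_cast at this
    exact this
  refine (Finset.sum_le_sum h3).trans (le_of_eq ?_)
  rw [Finset.sum_const, card_range, nsmul_eq_mul]
  ring

/-! ### the pairs far from the reference -/

variable {b d m ns}

/-- The pairs at the scale `0`. -/
theorem Qp0_eq {A : ℕ} {c : ℝ} (hd : d.OK b A c) : d.Qp 0 = dbl d.P d.L := by
  classical
  have hT : ∀ ω, d.Ti 0 ω = 0 := by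
    intro ω
    unfold LDat.Ti
    rw [pow_zero, one_mul]
    have h1 := hd.hth (d.T ω)
    exact Int.floor_eq_zero_iff.2 ⟨h1.1, h1.2⟩
  funext w
  unfold LDat.Qp dbl glue
  simp only [hT]
  have h1 : ∀ l, law d.P (fun ω => (d.L ω, (0 : ℤ))) (l, 0) = law d.P d.L l := by
    intro l
    unfold law
    refine Finset.sum_congr rfl fun ω _ => ?_
    simp
  by_cases h : d.L w.1 = d.L w.2
  · rw [if_pos h, if_pos (by rw [h]), h1]
  · rw [if_neg h, if_neg (fun h' => h (Prod.ext_iff.1 h').1)]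

/-- The times of the references are separated. -/
theorem sep_mean {A : ℕ} {c : ℝ} (hd : d.OK b A c) {k₀ : ℕ} {ε : ℝ} (hTC : TC d k₀ ε) :
    Pr d.Qr {v | ¬ d.sep k₀ v} ≤ (n + 1) ^ 2 * ε := by
  classical
  have hQ := Qr_law d hd.law
  have hε : 0 ≤ ε := (Pool.KAF.Pr_nonneg (Qp_law d hd.law 0).nonneg _).trans hTC
  set E : Fin (n + 1) × Fin (n + 1) → Set (Fin (n + 1) → d.Om) := fun x =>
    {v | x.1 ≠ x.2 ∧ |d.th (d.T (v x.2)) - d.th (d.T (v x.1))| < (2 : ℝ) ^ (-(k₀ : ℤ))} with hE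
  have h1 : Pr d.Qr {v | ¬ d.sep k₀ v} ≤ ∑ x, Pr d.Qr (E x) := by
    simp only [Pool.KAF.Pr_eq]
    rw [Finset.sum_comm]
    refine Finset.sum_le_sum fun v _ => ?_
    have hq := hQ.nonneg v
    have h0 : ∀ x ∈ (univ : Finset (Fin (n + 1) × Fin (n + 1))),
        (0 : ℝ) ≤ if v ∈ E x then d.Qr v else 0 := fun x _ => by split_ifs; exacts [hq, le_rfl]
    by_cases hv : v ∈ {v | ¬ d.sep k₀ v}
    · rw [if_pos hv]
      have hv' : ¬ d.sep k₀ v := hv
      unfold LDat.sep at hv'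
      push Not at hv'
      obtain ⟨j, j', h2, h3⟩ := hv'
      refine le_trans (le_of_eq ?_) (Finset.single_le_sum h0 (mem_univ (j, j')))
      rw [if_pos]
      refine ⟨h2, ?_⟩
      show |d.th (d.T (v j')) - d.th (d.T (v j))| < _
      rw [abs_sub_comm]
      exact h3
    · rw [if_neg hv]
      exact Finset.sum_nonneg h0
  refine h1.trans ?_
  have h2 : ∀ x ∈ (univ : Finset (Fin (n + 1) × Fin (n + 1))), Pr d.Qr (E x) ≤ ε := by
    intro x _
    by_cases hx : x.1 = x.2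
    · refine le_trans (le_of_eq ?_) hε
      rw [Pool.KAF.Pr_eq]
      refine Finset.sum_eq_zero fun v _ => if_neg fun hv => hv.1 hx
    · have h3 : Marg d.Qr (d.Qp 0) (fun v => (v x.1, v x.2)) := by
        rw [Pool.M5.A92.Qr_eq, Qp0_eq hd]
        exact Pool.SLO.tup_two hd.law.nonneg d.L x.1 x.2 hx
      have h4 := Pool.M5.A92.Pr_marg h3 {w | |d.ta w| < (2 : ℝ) ^ (-(k₀ : ℤ))}
      have h5 : Pr d.Qr (E x) ≤ Pr d.Qr {w | (w x.1, w x.2) ∈
          {w | |d.ta w| < (2 : ℝ) ^ (-(k₀ : ℤ))}} :=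
        Pool.KAF.Pr_mono hQ.nonneg fun v _ hv => hv.2
      rw [h4] at h5
      exact h5.trans hTC
  refine (Finset.sum_le_sum h2).trans (le_of_eq ?_)
  rw [Finset.sum_const, nsmul_eq_mul, Finset.card_univ, Fintype.card_prod, Fintype.card_fin]
  push_cast
  ring

/-- Nearly all pairs are near the reference. -/
theorem gW_mean {A h k₀ a : ℕ} {c ε : ℝ} (hOK : d.OK b A c) (hS : Siz b d ns h m c)
    (hNLC : NLC b d m ns a k₀ ε) (hTA : TA d ns ε) (hTC : TC d k₀ ε) {i : ℕ} (hi : i < ns) :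
    Pr (d.Q4 i) {u | u ∉ gW b d m ns k₀ a} ≤ ((n + 1) ^ 2 + 2) * ε := by
  have h1 := hS.h1
  have h2 := hS.hn
  have h3 := hS.nX
  have hQ := Q4_law d hOK.law i
  have p1 : Pr (d.Q4 i) {u | ¬ d.sep k₀ u.1} ≤ (n + 1) ^ 2 * ε := by
    have := Pool.M5.A92.Pr_marg (Pool.M5.A92.Q4_fst hOK i) {v | ¬ d.sep k₀ v}
    exact this.le.trans (sep_mean hOK hTC)
  have p2 : Pr (d.Q4 i) {u | |d.ta u.2| < (2 : ℝ) ^ (-((2 * ns : ℕ) : ℤ))} ≤ ε := by
    have := Pool.M5.A92.Pr_marg (Pool.M5.A92.Q4_snd hOK i)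
      {w | |d.ta w| < (2 : ℝ) ^ (-((2 * ns : ℕ) : ℤ))}
    exact this.le.trans (hTA i (2 * ns) (by omega) (by omega))
  have p3 := hNLC i (by omega)
  have q1 := Pool.M5T.Pr_or hQ.nonneg (A := {u | u ∉ gW b d m ns k₀ a})
    (B := {u | ¬ d.sep k₀ u.1 ∨ |d.ta u.2| < (2 : ℝ) ^ (-((2 * ns : ℕ) : ℤ))})
    (C := {u | d.sep k₀ u.1 ∧ (2 : ℝ) ^ (-(4 * ns : ℤ)) ≤ |d.ta u.2| ∧
      (n + 1) ^ 2 * (2 : ℝ) ^ ((a : ℤ) + 4 - m u.1) * |d.ta u.2| <
      ‖d.gr b (8 * ns) u‖}) (by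
      intro u _ hu
      by_cases g1 : d.sep k₀ u.1
      · by_cases g2 : |d.ta u.2| < (2 : ℝ) ^ (-((2 * ns : ℕ) : ℤ))
        · exact Or.inl (Or.inr g2)
        · right
          rw [not_lt] at g2
          refine ⟨g1, le_trans (zpow_le_zpow_right₀ (by norm_num) (by push_cast; omega)) g2, ?_⟩
          by_contra g3
          rw [not_lt] at g3
          refine hu ⟨g1, ?_, g3⟩
          push_cast at g2
          exact g2
      · exact Or.inl (Or.inl g1))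
  have q2 := Pool.M5T.Pr_or hQ.nonneg
    (A := {u | ¬ d.sep k₀ u.1 ∨ |d.ta u.2| < (2 : ℝ) ^ (-((2 * ns : ℕ) : ℤ))})
    (B := {u | ¬ d.sep k₀ u.1}) (C := {u | |d.ta u.2| < (2 : ℝ) ^ (-((2 * ns : ℕ) : ℤ))})
    fun u _ hu => hu
  linarith

end Pool.M5.ALS
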