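import Pool.Agent.H20.M5.Mom

/-!
# L1, row ALS: the forms of the pairs are atomic in the mean
-/

set_option autoImplicit false

namespace Pool.M5.ALS

open Finset Real
open Pool.Agent.H49.Ent Pool.Agent.H32.Dense Pool.STK Pool.KAF Pool.M5 Pool.M5.N2

variable {k n : ℕ} {I : Type} [Fintype I] {b : Bas k I} {d : LDat k n I} {J : d.Om → Set ℕ}
  {m : (Fin (n + 1) → d.Om) → ℤ} {ns : ℕ}

/-- Rows to a lower precision. -/
theorem RowA_mono {k' k₁ k₂ : ℕ} {e : ℝ} (hP : IsLaw d.P) (h : RowA b d J m ns k' k₁ e)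
    (hk : k₂ ≤ k₁) : RowA b d J m ns k' k₂ e := by
  intro i hi q W h1 h2
  refine le_trans (Finset.sum_le_sum fun s _ => ?_) (h i hi q W h1 h2)
  refine Ex_mono (Q4_law d hP i).nonneg fun u _ => ?_
  by_cases hu : u ∈ {u | u ∈ W ∧ 0 ≤ (s : ℤ) + q u ∧ ((s : ℤ) + q u).toNat ∈ J u.2.1}
  · rw [Set.indicator_of_mem hu, Set.indicator_of_mem hu]
    refine Pool.KAF.Pr_mono (fun v => cond_nonneg (Qr_nonneg d hP.nonneg) _ _ v) fun v _ hv => ?_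
    have h3 : (k₂ : ℤ) ≤ k₁ := by exact_mod_cast hk
    have h4 : (2 : ℝ) ^ (-((s : ℤ) + q u + k₁)) ≤ (2 : ℝ) ^ (-((s : ℤ) + q u + k₂)) :=
      zpow_le_zpow_right₀ (by norm_num) (by linarith)
    exact le_trans h4 hv
  · rw [Set.indicator_of_notMem hu, Set.indicator_of_notMem hu]

/-- A copy which is not atomic hits the row. -/
theorem bad_row {A h k₀ k₁ a k'' s : ℕ} {c : ℝ} (hOK : d.OK b A c) (hS : Siz b d ns h m c)
    (hCr : Cr n k₀ ≤ ns) (hk₁ : k₁ ≤ ns) {u : (Fin (n + 1) → d.Om) × (d.Om × d.Om)}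
    {v : Fin (n + 1) → d.Om} (hu : u ∈ gW b d m ns k₀ a)
    (hG : d.GA b m (8 * ns + s) v = d.GA b m (8 * ns + s) u.1) {j : ℤ}
    (hj : (2 : ℝ) ^ (-(j + k'')) ≤ |d.ta u.2|)
    (hF : 3 / 4 * (hk d m a k'' k₁ u.1 * Yk ns a s) ≤ |Fv b d ns u.1 u.2 v|) :
    (2 : ℝ) ^ (-(((8 * ns + s : ℕ) : ℤ) + (m u.1 + j) + k₁)) ≤
      |d.Z b (d.T u.2.1) (d.T u.2.2) (d.y (d.L (u.1 0)), d.c (d.L (u.1 0))) -
        d.Z b (d.T u.2.1) (d.T u.2.2) (d.y (d.L (v 0)), d.c (d.L (v 0)))| := by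
  have h1 := low_gW hOK hS hCr (s := 8 * ns + s) (by omega) hu hG
  refine le_trans ?_ h1
  have hmu := hS.m2 u.1
  have e1 : hk d m a k'' k₁ u.1 * Yk ns a s =
      (2 : ℝ) ^ ((k'' : ℤ) + 1 - m u.1 - k₁ - ((8 * ns + s : ℕ) : ℤ)) := by
    unfold hk Yk
    rw [← zpow_add₀ (by norm_num)]
    congr 1
    ring
  have e2 : (2 : ℝ) ^ (-(4 * ns : ℤ) - 30 - ((8 * ns + s : ℕ) : ℤ)) ≤
      1 / 4 * (hk d m a k'' k₁ u.1 * Yk ns a s) := by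
    rw [e1]
    have e3 : (1 : ℝ) / 4 = (2 : ℝ) ^ (-2 : ℤ) := by norm_num
    rw [e3, ← zpow_add₀ (by norm_num)]
    refine zpow_le_zpow_right₀ (by norm_num) ?_
    have : (k₁ : ℤ) ≤ ns := by exact_mod_cast hk₁
    push_cast
    have := Int.natCast_nonneg k''
    linarith
  have e4 : 1 / 2 * (hk d m a k'' k₁ u.1 * Yk ns a s) ≤
      |Fv b d ns u.1 u.2 v| - (2 : ℝ) ^ (-(4 * ns : ℤ) - 30 - ((8 * ns + s : ℕ) : ℤ)) := by
    linarith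
  have e5 : (0 : ℝ) ≤ 1 / 2 * (hk d m a k'' k₁ u.1 * Yk ns a s) := by
    rw [e1]
    positivity
  refine le_trans (le_of_eq ?_) (mul_le_mul hj e4 e5 (abs_nonneg _))
  rw [e1]
  have e6 : (1 : ℝ) / 2 = (2 : ℝ) ^ (-1 : ℤ) := by norm_num
  rw [e6, ← zpow_add₀ (by norm_num), ← zpow_add₀ (by norm_num)]
  congr 1
  ring

/-- The form of the base at a deep scale. -/
theorem deep {A k₁ a k'' s i₀ i : ℕ} {c : ℝ} (hOK : d.OK b A c)
    (hi₀ : k₁ + 3 * n + 1 ≤ i₀) {v : Fin (n + 1) → d.Om} {w : d.Om × d.Om}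
    {v' : Fin (n + 1) → d.Om} (h0 : d.ta w ≠ 0)
    (hta : |d.ta w| < (2 : ℝ) ^ (-((i₀ + i : ℕ) : ℤ)))
    (hG : d.GA b m (8 * ns + s) v' = d.GA b m (8 * ns + s) v)
    (hF : hk d m a k'' k₁ v * Yk ns a s < |Fb b d ns v w v'|) :
    3 / 4 * (hk d m a k'' k₁ v * Yk ns a s) ≤ |Fv b d ns v w v'| := by
  have h1 := Fv_Fb (ns := ns) hOK h0 hG
  have e1 : hk d m a k'' k₁ v * Yk ns a s =
      (2 : ℝ) ^ ((k'' : ℤ) + 1 - m v - k₁ - ((8 * ns + s : ℕ) : ℤ)) := by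
    unfold hk Yk
    rw [← zpow_add₀ (by norm_num)]
    congr 1
    ring
  have e2 : (n : ℝ) ^ 3 * |d.ta w| * (2 : ℝ) ^ (-(((8 * ns + s : ℕ) : ℤ) + m v)) ≤
      1 / 4 * (hk d m a k'' k₁ v * Yk ns a s) := by
    have c1 : (n : ℝ) ^ 3 ≤ (2 : ℝ) ^ ((3 * n : ℕ) : ℤ) := by
      have c2 : (n : ℝ) ≤ 2 ^ n := by
        have : n < 2 ^ n := Nat.lt_two_pow_self
        exact_mod_cast this.le
      rw [zpow_natCast, mul_comm 3 n, pow_mul]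
      exact pow_le_pow_left₀ (Nat.cast_nonneg n) c2 3
    have c3 := mul_le_mul c1 hta.le (abs_nonneg _) (by positivity)
    refine (mul_le_mul_of_nonneg_right c3 (by positivity)).trans ?_
    rw [e1]
    have e3 : (1 : ℝ) / 4 = (2 : ℝ) ^ (-2 : ℤ) := by norm_num
    rw [e3, ← zpow_add₀ (by norm_num), ← zpow_add₀ (by norm_num), ← zpow_add₀ (by norm_num)]
    refine zpow_le_zpow_right₀ (by norm_num) ?_
    have c4 : ((k₁ + 3 * n + 1 : ℕ) : ℤ) ≤ i₀ := by exact_mod_cast hi₀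
    push_cast at c4 ⊢
    have c5 := Int.natCast_nonneg k''
    have c6 := Int.natCast_nonneg i
    linarith
  have e4 : |Fb b d ns v w v'| ≤ |Fv b d ns v w v'| + |Fb b d ns v w v' - Fv b d ns v w v'| := by
    have e5 := abs_add_le (Fv b d ns v w v') (Fb b d ns v w v' - Fv b d ns v w v')
    have e6 : Fv b d ns v w v' + (Fb b d ns v w v' - Fv b d ns v w v') = Fb b d ns v w v' := by
      ring
    rw [e6] at e5
    exact e5
  linarith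

theorem ta_lt {i : ℕ} (hP : IsLaw d.P) {u : (Fin (n + 1) → d.Om) × (d.Om × d.Om)}
    (hu : 0 < d.Q4 i u) : |d.ta u.2| < (2 : ℝ) ^ (-(i : ℤ)) :=
  Ti_near d (Q4_pos d hP hu).2.2.2.2.2.2

open Classical in
/-- The forms of the pairs at a deep scale are atomic in the mean. -/
theorem vert {A h k₀ k' k₁ a k'' i₀ n₁ : ℕ} {c e : ℝ} (hOK : d.OK b A c) (hS : Siz b d ns h m c)
    (hCr : Cr n k₀ ≤ ns) (hkk : a + k + 2 * n + 10 ≤ k') (hk₁ : k₁ ≤ ns)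
    (hi₀ : k₁ + 3 * n + 1 ≤ i₀) (hRow : RowA b d J m ns k' k₁ e) {i : ℕ} (hi : i₀ + i < ns) :
    ∑ s ∈ range (d.X - 16 * ns), Ex d.Qr (fun v => Ex (pk d v) (fun w =>
      if s + i ∈ {j | i₀ + j ∈ Jf d J m ns v w} ∧ n₁ ≤ s + i ∧ s + i < d.X - 16 * ns then
      Ex (qk d (i₀ + i) w) (fun t => Pr (rk b d m ns s v)
        {v' | hk d m a k'' k₁ v * Yk ns a s < |Fb b d ns v (w, t) v'|}) else 0)) ≤
    e * d.X + ((d.X - 16 * ns : ℕ) : ℝ) *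
      (Pr (d.Qp (i₀ + i)) {w | |d.ta w| < (2 : ℝ) ^ (-(((i₀ + i : ℕ) : ℤ) + k''))} +
        Pr (d.Q4 (i₀ + i)) {u | u ∉ gW b d m ns k₀ a}) := by
  have hQ := Q4_law d hOK.law (i₀ + i)
  have h1 := hRow (i₀ + i) (by omega) (fun u => m u.1 + ((i₀ + i : ℕ) : ℤ))
    (gW b d m ns k₀ a) (by
      intro u u' _ _ g1 g2 g3 g4 g5
      exact ⟨by rw [g4], gW_congr b d m ns g1 g2 g3 g4 g5⟩) (by
      intro u v s hu hv hW hs hG
      refine (size_gW hOK hS hCr hs hW hG).trans ?_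
      refine (mul_le_mul_of_nonneg_right (ta_lt hOK.law hu).le (by positivity)).trans ?_
      rw [← zpow_add₀ (by norm_num)]
      refine zpow_le_zpow_right₀ (by norm_num) ?_
      have : ((a + k + 2 * n + 10 : ℕ) : ℤ) ≤ k' := by exact_mod_cast hkk
      push_cast at this ⊢
      linarith)
  rw [Finset.sum_Ico_eq_sum_range, show d.X - 8 * ns - 8 * ns = d.X - 16 * ns by omega] at h1
  set DD : ℝ := Pr (d.Qp (i₀ + i)) {w | |d.ta w| < (2 : ℝ) ^ (-(((i₀ + i : ℕ) : ℤ) + k''))}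
    with hDD
  set DW : ℝ := Pr (d.Q4 (i₀ + i)) {u | u ∉ gW b d m ns k₀ a} with hDW
  have hDD' : DD = Ex (d.Q4 (i₀ + i)) (fun u => if u ∈ {u : (Fin (n + 1) → d.Om) × (d.Om × d.Om) |
      |d.ta u.2| < (2 : ℝ) ^ (-(((i₀ + i : ℕ) : ℤ) + k''))} then (1 : ℝ) else 0) := by
    rw [Pool.M5T.Ex_ind]
    exact (Pool.M5.A92.Pr_marg (Pool.M5.A92.Q4_snd hOK (i₀ + i))
      {w | |d.ta w| < (2 : ℝ) ^ (-(((i₀ + i : ℕ) : ℤ) + k''))}).symm
  have hDW' : DW = Ex (d.Q4 (i₀ + i)) (fun u => if u ∈ {u | u ∉ gW b d m ns k₀ a}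
      then (1 : ℝ) else 0) := by
    rw [Pool.M5T.Ex_ind]
  have h2 : ∑ s ∈ range (d.X - 16 * ns), (Ex (d.Q4 (i₀ + i)) (Set.indicator
      {u | u ∈ gW b d m ns k₀ a ∧
        0 ≤ ((8 * ns + s : ℕ) : ℤ) + (m u.1 + ((i₀ + i : ℕ) : ℤ)) ∧
        (((8 * ns + s : ℕ) : ℤ) + (m u.1 + ((i₀ + i : ℕ) : ℤ))).toNat ∈ J u.2.1}
      (fun u => Pr (cond d.Qr (d.GA b m (8 * ns + s)) (d.GA b m (8 * ns + s) u.1))
        {v | (2 : ℝ) ^ (-(((8 * ns + s : ℕ) : ℤ) + (m u.1 + ((i₀ + i : ℕ) : ℤ)) + k₁)) ≤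
          |d.Z b (d.T u.2.1) (d.T u.2.2) (d.y (d.L (u.1 0)), d.c (d.L (u.1 0))) -
            d.Z b (d.T u.2.1) (d.T u.2.2) (d.y (d.L (v 0)), d.c (d.L (v 0)))|})) +
        (DD + DW)) ≤ e * d.X + ((d.X - 16 * ns : ℕ) : ℝ) * (DD + DW) := by
    rw [Finset.sum_add_distrib, Finset.sum_const, card_range, nsmul_eq_mul]
    have := h1
    linarith
  refine le_trans (Finset.sum_le_sum fun s hs => ?_) h2
  rw [hDD', hDW', ← Ex_add, ← Ex_add]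
  have h3 : Ex d.Qr (fun v => Ex (pk d v) (fun w =>
      if s + i ∈ {j | i₀ + j ∈ Jf d J m ns v w} ∧ n₁ ≤ s + i ∧ s + i < d.X - 16 * ns then
      Ex (qk d (i₀ + i) w) (fun t => Pr (rk b d m ns s v)
        {v' | hk d m a k'' k₁ v * Yk ns a s < |Fb b d ns v (w, t) v'|}) else 0)) =
      Ex (d.Q4 (i₀ + i)) (fun u => if s + i ∈ {j | i₀ + j ∈ Jf d J m ns u.1 u.2.1} ∧
        n₁ ≤ s + i ∧ s + i < d.X - 16 * ns then Pr (rk b d m ns s u.1)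
        {v' | hk d m a k'' k₁ u.1 * Yk ns a s < |Fb b d ns u.1 (u.2.1, u.2.2) v'|} else 0) := by
    rw [Pool.M5.A92.Ex_Q4 hOK]
    unfold Ex
    refine Finset.sum_congr rfl fun v _ => ?_
    congr 1
    refine Finset.sum_congr rfl fun w _ => ?_
    congr 1
    beta_reduce
    by_cases hJ : s + i ∈ {j | i₀ + j ∈ Jf d J m ns v w} ∧ n₁ ≤ s + i ∧
        s + i < d.X - 16 * ns
    · simp only [if_pos hJ]
    · simp only [if_neg hJ, mul_zero, Finset.sum_const_zero]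
  rw [h3]
  refine Ex_mono hQ.nonneg fun u hu => ?_
  obtain ⟨hQr, hQp, hP1, hP2, hL1, hL2, hT⟩ := Q4_pos d hOK.law hu
  have hrl : IsLaw (rk b d m ns s u.1) :=
    Pool.M5T.isLaw_cnd (Qr_law d hOK.law) (d.GA b m (8 * ns + s)) hQr
  have hle1 := Pool.KAF.Pr_le_one hrl
    {v' | hk d m a k'' k₁ u.1 * Yk ns a s < |Fb b d ns u.1 (u.2.1, u.2.2) v'|}
  have hi0 : 0 ≤ Set.indicator
      {u | u ∈ gW b d m ns k₀ a ∧
        0 ≤ ((8 * ns + s : ℕ) : ℤ) + (m u.1 + ((i₀ + i : ℕ) : ℤ)) ∧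
        (((8 * ns + s : ℕ) : ℤ) + (m u.1 + ((i₀ + i : ℕ) : ℤ))).toNat ∈ J u.2.1}
      (fun u => Pr (cond d.Qr (d.GA b m (8 * ns + s)) (d.GA b m (8 * ns + s) u.1))
        {v | (2 : ℝ) ^ (-(((8 * ns + s : ℕ) : ℤ) + (m u.1 + ((i₀ + i : ℕ) : ℤ)) + k₁)) ≤
          |d.Z b (d.T u.2.1) (d.T u.2.2) (d.y (d.L (u.1 0)), d.c (d.L (u.1 0))) -
            d.Z b (d.T u.2.1) (d.T u.2.2) (d.y (d.L (v 0)), d.c (d.L (v 0)))|}) u :=
    Set.indicator_nonneg (fun u _ => Pool.KAF.Pr_nonneg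
      (fun v => cond_nonneg (Qr_nonneg d hOK.law.nonneg) _ _ v) _) u
  have g1 : (0 : ℝ) ≤ if u ∈ {u | u ∉ gW b d m ns k₀ a} then 1 else 0 := by
    split_ifs <;> norm_num
  have g2 : (0 : ℝ) ≤ if u ∈ {u : (Fin (n + 1) → d.Om) × (d.Om × d.Om) |
      |d.ta u.2| < (2 : ℝ) ^ (-(((i₀ + i : ℕ) : ℤ) + k''))} then 1 else 0 := by
    split_ifs <;> norm_num
  by_cases hJ : s + i ∈ {j | i₀ + j ∈ Jf d J m ns u.1 u.2.1} ∧ n₁ ≤ s + i ∧
        s + i < d.X - 16 * ns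
  · rw [if_pos hJ]
    by_cases hd : |d.ta u.2| < (2 : ℝ) ^ (-(((i₀ + i : ℕ) : ℤ) + k''))
    · rw [if_pos (show u ∈ {u : (Fin (n + 1) → d.Om) × (d.Om × d.Om) |
        |d.ta u.2| < (2 : ℝ) ^ (-(((i₀ + i : ℕ) : ℤ) + k''))} from hd)]
      linarith
    by_cases hW : u ∈ gW b d m ns k₀ a
    · rw [if_neg (show u ∉ {u : (Fin (n + 1) → d.Om) × (d.Om × d.Om) |
        |d.ta u.2| < (2 : ℝ) ^ (-(((i₀ + i : ℕ) : ℤ) + k''))} from hd),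
        if_neg (show u ∉ {u | u ∉ gW b d m ns k₀ a} from fun h => h hW)]
      have f3 : (((8 * ns + (i₀ + (s + i)) : ℕ) : ℤ) + m u.1).toNat ∈ J u.2.1 := hJ.1
      have e1 : ((8 * ns + (i₀ + (s + i)) : ℕ) : ℤ) + m u.1 =
          ((8 * ns + s : ℕ) : ℤ) + (m u.1 + ((i₀ + i : ℕ) : ℤ)) := by push_cast; ring
      rw [e1] at f3
      have hmw := hS.m1 u.1
      rw [Set.indicator_of_mem (show u ∈ {u | u ∈ gW b d m ns k₀ a ∧
        0 ≤ ((8 * ns + s : ℕ) : ℤ) + (m u.1 + ((i₀ + i : ℕ) : ℤ)) ∧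
        (((8 * ns + s : ℕ) : ℤ) + (m u.1 + ((i₀ + i : ℕ) : ℤ))).toNat ∈ J u.2.1} from
        ⟨hW, by push_cast; linarith [Int.natCast_nonneg s, Int.natCast_nonneg i,
          Int.natCast_nonneg ns, Int.natCast_nonneg i₀], f3⟩)]
      rw [add_zero, add_zero]
      refine Pool.KAF.Pr_mono hrl.nonneg fun v hv hvb => ?_
      have hv1 := (cond_pos_iff (Qr_nonneg d hOK.law.nonneg) _ _ v).1 hv
      have hvb' : hk d m a k'' k₁ u.1 * Yk ns a s < |Fb b d ns u.1 u.2 v| := hvb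
      exact bad_row hOK hS hCr hk₁ hW hv1.2 (j := ((i₀ + i : ℕ) : ℤ)) (not_lt.1 hd)
        (deep hOK hi₀ (gW_ta hW) (ta_lt hOK.law hu) hv1.2 hvb')
    · rw [if_pos (show u ∈ {u | u ∉ gW b d m ns k₀ a} from hW)]
      linarith
  · rw [if_neg hJ]
    linarith

end Pool.M5.ALS
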